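import Pool.Agent.N352.JB.Def

/-! Project JB, part SHA: the 2-primary part of the group of locally trivial classes. -/

set_option autoImplicit false
set_option linter.all false

open Polynomial IsDedekindDomain
open scoped Classical

namespace Pool.Agent.N106.JB

open Pool.Agent.N352.JB
open Pool.Agent.Y160.SE
open Pool.Agent.TH115.GD (incl rs ak)
open Pool.Agent.Y713.Jac (CoordRing coordMap J mapJ Gal Cochain IsCocycle IsCoboundary IsTrivialOver)

section gen

variable {ℓ : ℕ} {K : Type} [Field K] {f : K[X]} {L L' L'' : Type} [Field L] [Algebra K L]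
  [Field L'] [Algebra K L'] [Field L''] [Algebra K L'']

theorem crMap_eq' (φ : L →ₐ[K] L') :
    crMap ℓ (φ : L →+* L') (f.map (algebraMap K L)) (f.map (algebraMap K L'))
      (by rw [Polynomial.map_map, φ.comp_algebraMap]) = coordMap ℓ f φ := by
  apply cr_hom_ext
  · intro c
    rw [crMap_xp]
    exact (AdjoinRoot.map_of (mapRingHom φ.toRingHom) _ _ _ _).symm
  · rw [crMap_xp]
    exact (AdjoinRoot.map_of (mapRingHom φ.toRingHom) _ _ _ _).symm
  · rw [crMap_yy]
    unfold coordMap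
    exact (AdjoinRoot.map_root _ _ _ _).symm

/-- A class written additively. -/
def ad (x : J ℓ f L) : Jac ℓ f L := Additive.ofMul x

/-- A class written multiplicatively. -/
def mu (x : Jac ℓ f L) : J ℓ f L := Additive.toMul x

theorem ad_mu (x : Jac ℓ f L) : ad (mu x) = x := rfl

theorem mu_ad (x : J ℓ f L) : mu (ad x) = x := rfl

theorem ad_inj {x y : J ℓ f L} (h : ad x = ad y) : x = y := h

theorem ad_mul (x y : J ℓ f L) : ad (x * y) = ad x + ad y := rfl

theorem ad_div (x y : J ℓ f L) : ad (x / y) = ad x - ad y := rfl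

theorem ad_pow (x : J ℓ f L) (n : ℕ) : ad (x ^ n) = n • ad x := rfl

theorem ad_mapJ (φ : L →ₐ[K] L') (x : J ℓ f L) : ad (mapJ ℓ f φ x) = jm ℓ f φ (ad x) := by
  show Additive.ofMul (CommRing.Pic.mapRingHom (coordMap ℓ f φ) x) =
    Additive.ofMul (CommRing.Pic.mapRingHom (crMap ℓ (φ : L →+* L') _ _ _) x)
  rw [crMap_eq' φ]

end gen

section coc

variable {K : Type} [Field K] {f : K[X]}

/-- The cocycle condition in additive notation. -/
def ACoc (c : Gal K → Jac 2 f (SeparableClosure K)) : Prop :=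
  IsLocallyConstant c ∧ ∀ σ τ : Gal K, c (σ * τ) = c σ + jm 2 f (ak σ) (c τ)

/-- Coboundaries in additive notation. -/
def ACob (c : Gal K → Jac 2 f (SeparableClosure K)) : Prop :=
  ∃ Q : Jac 2 f (SeparableClosure K), ∀ σ : Gal K, c σ = jm 2 f (ak σ) Q - Q

/-- Local triviality in additive notation. -/
def ATriv (E : Type) [Field E] [Algebra K E] (c : Gal K → Jac 2 f (SeparableClosure K)) : Prop :=
  ∃ (ι : SeparableClosure K →ₐ[K] SeparableClosure E) (P : Jac 2 f (SeparableClosure E)),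
    ∀ (τ : SeparableClosure E ≃ₐ[E] SeparableClosure E) (σ : Gal K),
      (∀ x : SeparableClosure K, τ (ι x) = ι (σ x)) →
      jm 2 f ι (c σ) = jm 2 f (rs K τ) P - P

theorem acoc {c : Cochain 2 f} (h : IsCocycle 2 f c) : ACoc fun σ => ad (c σ) := by
  refine ⟨h.1.comp _, fun σ τ => ?_⟩
  show ad (c (σ * τ)) = _
  rw [h.2 σ τ, ad_mul, ad_mapJ]
  rfl

theorem acob_iff {c : Cochain 2 f} : IsCoboundary 2 f c ↔ ACob fun σ => ad (c σ) := by
  constructor
  · rintro ⟨Q, hQ⟩
    refine ⟨ad Q, fun σ => ?_⟩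
    show ad (c σ) = _
    rw [hQ σ, ad_div, ad_mapJ]
    rfl
  · rintro ⟨Q, hQ⟩
    refine ⟨mu Q, fun σ => ad_inj ?_⟩
    have h : ad (c σ) = jm 2 f (ak σ) Q - Q := hQ σ
    rw [h, ad_div, ad_mapJ, ad_mu]
    rfl

theorem atriv {E : Type} [Field E] [Algebra K E] {c : Cochain 2 f} (h : IsTrivialOver 2 f E c) :
    ATriv E fun σ => ad (c σ) := by
  obtain ⟨ι, P, hP⟩ := h
  refine ⟨ι, ad P, fun τ σ hx => ?_⟩
  show jm 2 f ι (ad (c σ)) = _
  rw [← ad_mapJ, hP τ σ hx, ad_div, ad_mapJ]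
  rfl

theorem ACoc.nsmul {c : Gal K → Jac 2 f (SeparableClosure K)} (h : ACoc c) (n : ℕ) :
    ACoc fun σ => n • c σ := by
  refine ⟨h.1.comp fun x => n • x, fun σ τ => ?_⟩
  show n • c (σ * τ) = n • c σ + jm 2 f (ak σ) (n • c τ)
  rw [h.2 σ τ, smul_add, map_nsmul]

theorem ATriv.nsmul {E : Type} [Field E] [Algebra K E]
    {c : Gal K → Jac 2 f (SeparableClosure K)} (h : ATriv E c) (n : ℕ) :
    ATriv E fun σ => n • c σ := by
  obtain ⟨ι, P, hP⟩ := h
  refine ⟨ι, n • P, fun τ σ hx => ?_⟩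
  show jm 2 f ι (n • c σ) = jm 2 f (rs K τ) (n • P) - n • P
  rw [map_nsmul, map_nsmul, hP τ σ hx, smul_sub]

end coc

theorem good2 {K : Type} [Field K] {f : K[X]} (h2 : (2 : K) ≠ 0) (hm : f.Monic)
    (hs : f.Separable) (ho : Odd f.natDegree) : Good 2 (-1 : K) f := by
  refine ⟨Nat.prime_two, ?_, hm, hs, ?_⟩
  · refine IsPrimitiveRoot.mk_of_lt _ two_pos (by norm_num) fun l hl hl2 => ?_
    have : l = 1 := by omega
    subst this
    rw [pow_one]
    intro h
    apply h2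
    linear_combination -h
  · exact (Nat.coprime_two_left (n := f.natDegree)).2 ho

/-- The core: twice the cocycle is a coboundary. -/
theorem core (h1 : S_KUM) (h2 : S_LOC) (h3 : S_COB) (h4 : S_DBL) (h5 : S_LC)
    {K : Type} [Field K] {f : K[X]} (hg : Good 2 (-1 : K) f) (hirr : Irreducible f)
    (Pl : ∀ (E : Type) [Field E] [Algebra K E], Prop) (hS : SelTriv Pl f)
    (c : Gal K → Jac 2 f (SeparableClosure K)) (hc : ACoc c)
    (ht : ∀ (E : Type) [Field E] [Algebra K E], Pl E → ATriv E c)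
    (hb : ACob fun σ => 2 • c σ) : ACob c := by
  obtain ⟨Q, hQ⟩ := hb
  obtain ⟨d1, d2, d3⟩ := h4 K (SeparableClosure K) f hg
  obtain ⟨Q', hQ'⟩ := d3 Q
  -- the corrected cocycle
  set c'' : Gal K → Jac 2 f (SeparableClosure K) := fun σ => c σ - (jm 2 f (ak σ) Q' - Q') with hc''
  have hlc : IsLocallyConstant c'' :=
    hc.1.sub ((h5 K (SeparableClosure K) f hg Q').sub (IsLocallyConstant.const Q'))
  have hjm : ∀ (σ τ : Gal K) (x : Jac 2 f (SeparableClosure K)),
      jm 2 f (ak (σ * τ)) x = jm 2 f (ak σ) (jm 2 f (ak τ) x) := by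
    intro σ τ x
    rw [jm_jm]
    rfl
  have hco : ∀ σ τ, c'' (σ * τ) = c'' σ + jm 2 f (ak σ) (c'' τ) := by
    intro σ τ
    show c (σ * τ) - (jm 2 f (ak (σ * τ)) Q' - Q') =
      c σ - (jm 2 f (ak σ) Q' - Q') + jm 2 f (ak σ) (c τ - (jm 2 f (ak τ) Q' - Q'))
    rw [hc.2 σ τ, hjm, map_sub, map_sub]
    abel
  have htor : ∀ σ, Tor hg (c'' σ) := by
    intro σ
    rw [d1]
    show 2 • (c σ - (jm 2 f (ak σ) Q' - Q')) = 0
    have := hQ σ
    simp only at this
    rw [smul_sub, smul_sub, this, ← map_nsmul, hQ']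
    abel
  obtain ⟨h, b, hK, hsq⟩ := h1 K (SeparableClosure K) f hg hirr c'' hlc hco htor
  have hcop : IsCoprime h f := by
    have hnd : ¬ f ∣ h := by
      intro hd
      obtain ⟨e, he⟩ := exists_rt hg (SeparableClosure K)
      obtain ⟨hb0, hb1⟩ := hK.val e he
      apply hb0
      have : aeval e h = 0 := by
        obtain ⟨q, hq⟩ := hd
        rw [hq, map_mul, show aeval e f = 0 from he, zero_mul]
      rw [this] at hb1
      exact pow_eq_zero_iff (two_ne_zero) |>.1 hb1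
    exact ((hirr.coprime_iff_not_dvd).2 hnd).symm
  have hloc : ∀ (E : Type) [Field E] [Algebra K E], Pl E →
      LocIm E (f.map (algebraMap K E)) (h.map (algebraMap K E)) := by
    intro E _ _ hE
    obtain ⟨ι, P, hP⟩ := ht E hE
    refine h2 K (SeparableClosure K) E (SeparableClosure E) f hg c'' htor h b hK ι
      (P - jm 2 f ι Q') ?_
    intro τ σ hx
    show jm 2 f ι (c σ - (jm 2 f (ak σ) Q' - Q')) = _
    have hcomm : jm 2 f ι (jm 2 f (ak σ) Q') = jm 2 f (rs K τ) (jm 2 f ι Q') := by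
      rw [jm_jm, jm_jm]
      have e : ι.comp (ak σ) = (rs K τ).comp ι := AlgHom.ext fun x => (hx x).symm
      rw [e]
    rw [map_sub, map_sub, hcomm, hP τ σ hx, map_sub]
    abel
  obtain ⟨s, hs⟩ := hS h hcop hsq hloc
  obtain ⟨R, _, hR⟩ := h3 K (SeparableClosure K) f hg hirr c'' hco htor h b hK s hs
  refine ⟨R + Q', fun σ => ?_⟩
  have h6 : c σ = c'' σ + (jm 2 f (ak σ) Q' - Q') := by
    show c σ = (c σ - (jm 2 f (ak σ) Q' - Q')) + (jm 2 f (ak σ) Q' - Q')
    rw [sub_add_cancel]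
  rw [h6, hR σ, map_add]
  abel

theorem sha (h1 : S_KUM) (h2 : S_LOC) (h3 : S_COB) (h4 : S_DBL) (h5 : S_LC) : S_SHA := by
  intro K _ f hK2 hm hirr hsep ho Pl hS c m hc ht hb
  have hg : Good 2 (-1 : K) f := good2 hK2 hm hsep ho
  rw [acob_iff]
  rw [acob_iff] at hb
  have key : ∀ (m : ℕ) (c : Gal K → Jac 2 f (SeparableClosure K)), ACoc c →
      (∀ (E : Type) [Field E] [Algebra K E], Pl E → ATriv E c) →
      ACob (fun σ => 2 ^ m • c σ) → ACob c := by
    intro m
    induction m with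
    | zero =>
      intro c hc ht hb
      simpa using hb
    | succ m ih =>
      intro c hc ht hb
      refine ih c hc ht (core h1 h2 h3 h4 h5 hg hirr Pl hS _ (hc.nsmul _)
        (fun E _ _ hE => (ht E hE).nsmul _) ?_)
      obtain ⟨Q, hQ⟩ := hb
      refine ⟨Q, fun σ => ?_⟩
      rw [← hQ σ]
      have e : (2 : ℕ) ^ (m + 1) = 2 * 2 ^ m := by rw [pow_succ, mul_comm]
      exact ((congrArg (fun n : ℕ => n • c σ) e).trans (mul_smul 2 (2 ^ m) (c σ))).symm
  refine key m _ (acoc hc) (fun E _ _ hE => atriv (ht E hE)) ?_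
  exact hb

end Pool.Agent.N106.JB
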